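import Pool.Agent.Helper15K1.LS.Cov

/-!
# Kobayashi hyperbolic varieties dominated by the product of several varieties and a curve are of
general type

Let `V = X 0 × ... × X (k - 1) × C`, where the `X i` are smooth projective varieties over `ℂ` of
dimension `m i` and `C` is a smooth projective curve of any genus. Let `V ⇢ X` be a dominant rational
map of finite degree to a projective variety `X` of any dimension, smooth or not. It need not be
related to the product structure, and it need not be the quotient by a group. Let `X_i` be the image
of `V` in `X × X 0 × ... × X (i - 1)`, and let `d i` be the degree over `X_i` of the image of `V` in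
`X_i × X i`; for example `d 0` is the number of different points of `X 0` below a general fibre of
`V ⇢ X`. The product of the `d i` is at most the degree of `V ⇢ X`. Suppose that for all `i` the
canonical forms of `X i` separate `2 d i` general points: for some nonempty open subset `U` of `X i`
any `2 d i` different points of `U` impose independent conditions on `H⁰(X i, K)`. For example, `X i`
is a smooth hypersurface of degree at least `m i + 1 + 2 d i` in projective space, or a curve of
gonality greater than `2 d i`.

**Theorem.** If `X` is Kobayashi hyperbolic, then `X` is of general type, as predicted by Lang's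
conjecture, and already its canonical map (given by the regular canonical forms of a resolution) is
generically finite onto its image. It is enough that the union of the nonconstant entire curves in
`X` is not Zariski dense in `X`.

There is no condition on the irregularity of `X`: `q(X) = 0` is possible, and then the known theorems
on varieties of large Albanese dimension do not apply. With the theorem for surfaces (a hyperbolic
projective surface is of general type, which is known and not formalised here) and the elementary case
of curves, all the subvarieties of a hyperbolic threefold `X` in this class are of general type.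

Proof. By `Pool.Agent.N145.SX.multi_lang` of the starting files either the canonical map of `X` is
generically finite, or `X` is covered by a family of curves of genus at most one, given by its
geometric generic member `E` over an algebraically closed field `Λ` of transcendence degree
`dim X - 1`. The new part is that then the entire curves are Zariski dense in `X`. If `E` is rational
then `X` is uniruled (`Pool/Agent/R882/HY.lean`). Otherwise `E` is the cubic `y ^ 2 = x ^ 3 + a x + b`
(`Pool/Agent/TH143/GE/Wei.lean`), and the generic point of `X` is given by polynomials in `x`, `y` over
a finitely generated subring `A` of `Λ`. Let `R` be a form which does not vanish on `X`. There is a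
homomorphism `A → ℂ` such that a coefficient of `R` (generic point) modulo the equation of the cubic,
and a minor which shows that the map `E ⇢ X` is not constant, are not mapped to zero. So there is a
rational map from the special cubic to `X` which is not constant and whose image is not in `R = 0`. We
compose it with the entire parametrisation of the cubic (`Pool/Agent/Q95/SF/WeiB.lean`, the Poincaré
function of the duplication map), and remove the common zeros by the theorem of Weierstrass.
-/

set_option autoImplicit false
set_option linter.overlappingInstances false
set_option maxHeartbeats 4000000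
set_option synthInstance.maxHeartbeats 400000

open FF Module Pool.Agent Pool.Agent.W602.GT

namespace Pool.Agent.Results.MP_c6ff8d_ag.HyperbolicProductImages

/-- **The canonical forms separate `r` general points.** `E` is the function field of a variety `X` of
dimension `m`, and `D` a rational frame of the tangent bundle. The embeddings `σ : E → Ω` are the
generic points of `X` with coordinates in the field `Ω`. At most `r` different such points impose
independent conditions on the canonical forms `ω` which are regular at all prime divisors: if
`∑ c σ * σ (ω D) = 0` for all `ω` then all the coefficients `c σ` are zero. -/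
def SeparatesPoints (E : Type) [Field E] [Algebra ℂ E] (m r : ℕ) : Prop :=
  ∀ D : Fin m → Derivation ℂ E E, LinearIndependent E D →
    ∀ (Ω : Type) [Field Ω] [Algebra ℂ Ω] [IsAlgClosed Ω] (A : Finset (E →ₐ[ℂ] Ω)), A.card ≤ r →
    ∀ c : (E →ₐ[ℂ] Ω) → Ω,
    (∀ ω : (Fin m → Derivation ℂ E E) → E, IsPluri 1 ω →
      (∀ P : Place ℂ E, Divisorial m P → RegAt P ω) → ∑ σ ∈ A, c σ * σ (ω D) = 0) →
    ∀ σ ∈ A, c σ = 0

variable {K : Type} [Field K] [Algebra ℂ K] {k : ℕ}

/-- The function field of the image `X_i` of `V` in the product of `X` and the first `i` factors.
Here `K` and `L` are the function fields of `V` and `X`, and `F l` is the one of the `l`-th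
factor. -/
noncomputable def Img (F : Fin (k + 1) → IntermediateField ℂ K) (L : Type) [Field L] [Algebra L K]
    (i : ℕ) : IntermediateField L K :=
  IntermediateField.adjoin L {z | ∃ l : Fin (k + 1), l.val < i ∧ z ∈ F l}

/-- The degree over `X_i` of the image of `V` in the product of `X_i` and the `i`-th factor. -/
noncomputable def deg (F : Fin (k + 1) → IntermediateField ℂ K) (L : Type) [Field L] [Algebra L K]
    (i : Fin (k + 1)) : ℕ :=
  finrank (Img F L i) (IntermediateField.adjoin (Img F L i) (F i : Set K))

theorem deg_eq (F : Fin (k + 1) → IntermediateField ℂ K) (L : Type) [Field L] [Algebra ℂ L]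
    [Algebra L K] [IsScalarTower ℂ L K] [FiniteDimensional L K] (i : Fin (k + 1)) :
    deg F L i = finrank (N145.PC.MF F L (N145.PC.Js (k + 1) i))
      (IntermediateField.adjoin (N145.PC.MF F L (N145.PC.Js (k + 1) i)) (F i : Set K)) := by
  unfold deg Img
  rw [N145.SX.mf_eq]

/-- The regular canonical forms of the smooth projective varieties of dimension `w` with function
field `L` give a generically finite map: there are canonical forms, regular at all prime divisors,
with `w` algebraically independent ratios. In particular the varieties are of general type. -/
def CanonicalMapFinite (L : Type) [Field L] [Algebra ℂ L] (w : ℕ) : Prop :=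
  ∃ ω : Fin (w + 1) → (Fin w → Derivation ℂ L L) → L,
    (∀ i, IsPluri 1 (ω i) ∧ ∀ P : Place ℂ L, Divisorial w P → RegAt P (ω i)) ∧
    ∃ D, ω 0 D ≠ 0 ∧ AlgebraicIndependent ℂ (fun i : Fin w => ω i.succ D / ω 0 D)

/-- `f` is a nonconstant holomorphic map from `ℂ` to the projective variety `X` with the generic
point `x`, given by entire functions without common zeros. -/
structure EntireCurve {L : Type} [Field L] [Algebra ℂ L] {M : ℕ} (x : Fin (M + 1) → L)
    (f : ℂ → Fin (M + 1) → ℂ) : Prop where
  hol : Differentiable ℂ f
  mem : ∀ t, f t ∈ VarPts ℂ x
  nonconst : ∃ s t, ∀ c : ℂ, f s ≠ c • f t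

/-- **Lang's conjecture for hyperbolic images of products.** Let `K` be the function field of the
product `V` of the varieties with the function fields `F i`, `i < k`, of dimension `m i`, and of the
curve with the function field `F k`, i.e. `K` is the compositum and its transcendence degree is
`∑ m i + 1`. Let `X` be a projective variety with function field `L ⊆ K`, such that the extension is
finite, and with generic point `x`. Suppose that for all `i < k` the canonical forms of the `i`-th
variety separate `2 d i` general points, where `d i` is the degree over `X_i` of the image of `V` in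
the product of `X_i` and this variety. If there is no nonconstant holomorphic map from `ℂ` to `X`
(that is, `X` is Kobayashi hyperbolic, by Brody's criterion), or if only all these maps have images in
a proper closed subset `R = 0` of `X`, then `X` is of general type, and the canonical map of `X` is
generically finite. -/
theorem result [Algebra.EssFiniteType ℂ K] (m : Fin k → ℕ)
    (F : Fin (k + 1) → IntermediateField ℂ K) [∀ i, Algebra.EssFiniteType ℂ (F i)]
    [IsFF ℂ (F (Fin.last k))] (hF : ⨆ i, F i = ⊤)
    (hm : ∀ i : Fin k, Algebra.trdeg ℂ (F i.castSucc) = m i)
    (hK : Algebra.trdeg ℂ K = (∑ i, m i + 1 : ℕ)) (L : Type) [Field L] [Algebra ℂ L]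
    [Algebra L K] [IsScalarTower ℂ L K] [FiniteDimensional L K]
    (hX : ∀ i : Fin k, SeparatesPoints (F i.castSucc) (m i) (2 * deg F L i.castSucc))
    {M : ℕ} {x : Fin (M + 1) → L} (hx : x ≠ 0) (hgen : coords ℂ x = ⊤)
    (hyp : (∀ f, ¬ EntireCurve x f) ∨ ∃ R : MvPolynomial (Fin (M + 1)) ℂ, IsForm R ∧
      val x R ≠ 0 ∧ ∀ f, EntireCurve x f → ∀ t, val (f t) R = 0) :
    GeneralType ℂ L (∑ i, m i + 1) ∧ CanonicalMapFinite L (∑ i, m i + 1) := by
  have hL : Algebra.trdeg ℂ L = (∑ i, m i + 1 : ℕ) := Pool.Agent.Y184.NT.trdeg_below (K := K) hK
  choose y D hy hD using fun i : Fin k => Pool.Agent.Y172.exists_crd (hm i)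
  have h := N145.SX.multi_lang (L := L) hF hm hK hy
    (g := fun i => 2 * deg F L i.castSucc + 1)
    (fun i => N145.SX.sepX_of' (hy i) (hD i) fun Ω _ _ _ A hA c hc =>
      hX i (D i) (N145.SX.dual_indep (hD i)) Ω A hA c hc)
    (fun i => by
      rw [deg_eq]
      exact Nat.lt_succ_self _)
  have hno : ¬ N145.SX.Cov1 L (∑ i, m i) := by
    intro hcov
    rcases hyp with h1 | ⟨R, hR, hRx, h1⟩
    · obtain ⟨R, hR, hRx⟩ := Pool.Agent.R882.HY.exists_coord hx
      obtain ⟨f, hf, hfx, hne, -⟩ :=
        Pool.Agent.Helper15K1.LS.exists_entire hL hcov hx hgen hR hRx
      exact h1 f ⟨hf, hfx, hne⟩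
    · obtain ⟨f, hf, hfx, hne, t, ht⟩ :=
        Pool.Agent.Helper15K1.LS.exists_entire hL hcov hx hgen hR hRx
      exact ht (h1 f ⟨hf, hfx, hne⟩ t)
  obtain ⟨ω, hω, D', hD', hind⟩ := h.resolve_right hno
  exact ⟨⟨hL, 1, one_pos, ω, fun j => (hω j).1, fun P hP j => (hω j).2 P hP, D', hD', hind⟩,
    ω, hω, D', hD', hind⟩

end Pool.Agent.Results.MP_c6ff8d_ag.HyperbolicProductImages
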