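import Pool.Agent.R882.HYM
import Pool.Agent.TH466.QG.ATop

/-!
# Hyperbolic varieties dominated by Kummer covers of projective space are of general type

MP_c6ff8d_ag, Q1, one direction for a class of projective varieties. Let `ℓ i = 0` be `q` hyperplanes
in projective `n`-space, an arbitrary arrangement, and let `V` be an abelian cover of projective
`n`-space over this arrangement whose function field contains the `N`-th roots of the ratios of the
forms `ℓ i`, for example the Kummer cover given by `y i ^ N = ℓ i (x)`. Let `N > (n + 2) (5 r - 4)`
and let `X` be any projective variety, smooth or not, which is dominated by `V` with degree at most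
`r`, that is, there is a dominant rational map `V ⇢ X` of degree at most `r`, for example a
projective model of the quotient of `V` by a group of at most `r` birational automorphisms. No
assumption is made on the branch locus of `V ⇢ X`, on the singularities, or on the arrangement.

The theorem says that `X` is of general type if it is Kobayashi hyperbolic (by Brody's criterion:
every holomorphic map from `ℂ` to `X` is constant), or only contains no rational curve, or if the
union of the rational curves on `X` is not Zariski dense; and that this is decided by the
arrangement: if the arrangement is reducible then `X` is uniruled, and if it is not reducible then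
`X` is of general type.

`K` and `L` are the function fields of `V` and `X`, and `x` is the generic point of `X`, in
homogeneous coordinates: `coords ℂ x` is the field generated by their ratios, and `VarPts ℂ x` is the
set of the points of `X`. `NoRationalCurve`, `BrodyHyperbolic`, `SpRat` (the Zariski closure of the
union of the rational curves on `X`) are in `Pool/Agent/R882/HYDefs.lean`.
-/

set_option autoImplicit false
set_option linter.overlappingInstances false

open Pool.Agent.W602.Cov Pool.Agent.W602.GT
open Pool.Agent.W619.PQ (IsUniruled)
open Pool.Agent.R882.HY (NoRationalCurve BrodyHyperbolic SpRat)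

namespace Pool.Agent.Results.MP_c6ff8d_ag.KummerImages

/-- The value of a linear form at a vector over `K`. -/
noncomputable def form {n : ℕ} {K : Type} [Field K] [Algebra ℂ K] (φ : Form n)
    (x : Fin (n + 1) → K) : K := ∑ j, algebraMap ℂ K (φ (Pi.single j 1)) * x j

/-- The ratios of the values of the linear forms `ℓ i` at `x` have `N`-th roots in `K`. -/
def Roots {n q : ℕ} (ℓ : Fin q → Form n) {K : Type} [Field K] [Algebra ℂ K]
    (x : Fin (n + 1) → K) (N : ℕ) : Prop :=
  ∀ i j, ∃ z : K, form (ℓ i) x = form (ℓ j) x * z ^ N

/-- **Hyperbolic images of Kummer covers.** Let `n ≥ 1` and `N > (n + 2) (5 r - 4)`. Let `V` be an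
abelian cover of projective `n`-space over an arbitrary arrangement whose function field contains the
`N`-th roots of the ratios of the forms of the arrangement, and let `X` be a projective variety with
a dominant rational map `V ⇢ X` of degree at most `r`, with function field `L` and generic point `p`.
If every holomorphic map from `ℂ` to `X` is constant, or if there is no rational curve on `X`, or if
the union of the rational curves on `X` is not Zariski dense, then `X` is of general type and the
arrangement is not reducible. Moreover `X` is of general type if and only if it is not uniruled, and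
if and only if the arrangement is not reducible. -/
theorem result (n q q' N r : ℕ) (hn : 1 ≤ n) (hN : 5 * (n + 2) * r < N + 4 * (n + 2))
    (V : Cover n q q') (hV : V.Free) {K : Type} [Field K] [Algebra ℂ K] {x : Fin (n + 1) → K}
    {y : Fin q' → K} (hK : V.FunctionField K x y) (hR : Roots V.ℓ x N)
    (L : Type) [Field L] [Algebra ℂ L] [Algebra L K] [IsScalarTower ℂ L K]
    [FiniteDimensional L K] (hr : Module.finrank L K ≤ r) {M : ℕ} {p : Fin (M + 1) → L}
    (hp : p ≠ 0) (hgen : coords ℂ p = ⊤) :
    (BrodyHyperbolic p ∨ NoRationalCurve p ∨ SpRat p ≠ VarPts ℂ p →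
      GeneralType ℂ L n ∧ ¬ Reducible V.ℓ) ∧
    [GeneralType ℂ L n, ¬ IsUniruled ℂ L n, ¬ Reducible V.ℓ].TFAE := by
  obtain ⟨h1, h2, h3⟩ := Pool.Agent.TH152.AC.coords V hK
  have htr : Algebra.trdeg ℂ K = n := Pool.Agent.W602.GT.trdeg_of_basis h3
  have hLtr : Algebra.trdeg ℂ L = n := Pool.Agent.Y184.NT.trdeg_below (K := K) htr
  have hT := Pool.Agent.TH466.QG.arr_tfae hn V hV hK hR hN hr
  have h23 : IsUniruled ℂ L n ↔ ¬ GeneralType ℂ L n := hT.out 2 3
  have h34 : ¬ GeneralType ℂ L n ↔ Reducible V.ℓ := hT.out 3 4
  have hd : GeneralType ℂ L n ∨ IsUniruled ℂ L n := by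
    by_cases hg : GeneralType ℂ L n
    · exact Or.inl hg
    · exact Or.inr (h23.2 hg)
  obtain ⟨g1, g2, g3, g4⟩ := Pool.Agent.R882.HY.of_dichotomy hLtr hd hp hgen
  have hred : GeneralType ℂ L n → ¬ Reducible V.ℓ := fun hg hr => h34.2 hr hg
  refine ⟨?_, ?_⟩
  · rintro (h | h | h)
    · exact ⟨g4 h, hred (g4 h)⟩
    · exact ⟨g3 h, hred (g3 h)⟩
    · exact ⟨g2 h, hred (g2 h)⟩
  · tfae_have 1 ↔ 2 := g1
    tfae_have 1 → 3 := hred
    tfae_have 3 → 1 := fun h => by
      by_contra hg
      exact h (h34.1 hg)
    tfae_finish

end Pool.Agent.Results.MP_c6ff8d_ag.KummerImages
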