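import Pool.Agent.Helper84.LG.Poly

/-!
# Lang's conjecture and the finite images of the varieties of the vectors whose powers are the
values of a polynomial

MP_c6ff8d_ag, Q1, for a class of projective varieties. Let `a 0, ..., a N` be distinct complex
numbers, `m ≥ 2`, and let `V = {F = 0}` be a closed subset of `P^N` such that for every point `x` of
`V` there is a polynomial `H` of degree at most `n` with `x i ^ m = H (a i)` for all `i`, and `H` is
not divisible by the `m`-th power of a polynomial of degree at least two (`AllSimple`; the last
condition always holds if `n < 2 m`, and then `V` is any closed subset of the smooth complete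
intersection `PowVal a n m` of dimension `n`). Let `4 n + (n + 2 r - 1) ^ 2 < 2 (N + 1)`.

`G : V → X = {Φ = 0}` is any surjective morphism whose fibres have at most `r` points; nothing is
assumed about its branch locus or about the singularities of `V` and of `X`. The theorem says that
all the closed subvarieties of positive dimension of `X`, including `X` if it is irreducible, are of
general type as soon as `X` is Kobayashi hyperbolic (by Brody's criterion: every holomorphic map from
the plane to `X` is constant), or only contains no rational curve, or if no subvariety of `X` is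
uniruled, or if they all have a pseudo-effective canonical class. All this holds if and only if `V`
contains no line, if and only if `V` is Kobayashi hyperbolic. If this is the case, then it is proved
for all the finite covers `W → V` and all surjective morphisms `W → X` with fibres of at most `r`
points that all the closed subvarieties of positive dimension of `X` are of general type.

So for all these `X`, hyperbolicity implies that all subvarieties are of general type, and for `V`
both conditions of Lang's conjecture are equivalent to those for the subvarieties of the images of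
`V`. (That `X` is hyperbolic if all its subvarieties are of general type is not proved here, except
for `X = V`.)
-/

set_option autoImplicit false

namespace Pool.Agent.Results.MP_c6ff8d_ag.PolynomialValueImages

open Pool.Agent.W602.GT Pool.Agent.Y190.BV Pool.Agent.Y190.PH Pool.Agent.Y460.KB
  Pool.Agent.Helper84.LG
open Pool.Agent.Y221.FQ (Mor Onto FibresLe)
open Pool.Agent.W619.PQ (IsUniruled)

/-- **Lang's conjecture and the finite images of polynomial value varieties.** Let `V = {F = 0}` be
as above, `m ≥ 2`, `r ≥ 1` and `4 n + (n + 2 r - 1) ^ 2 < 2 (N + 1)`.
**(1)** If `n < 2 m`, then all closed subsets of `PowVal a n m` are admissible.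
**(2)** Let `G : V → X = {Φ = 0}` be a surjective morphism whose fibres have at most `r` points. The
following are equivalent: all closed subvarieties of positive dimension of `X` are of general type;
all have a nonnegative Kodaira dimension; all have a pseudo-effective canonical class; none is
uniruled; there is no rational curve on `X`; `V` contains no line; `V` is Kobayashi hyperbolic. They
all hold if `X` is Kobayashi hyperbolic.
**(3)** Suppose that `V` is Kobayashi hyperbolic. For every projective variety `W = {Ψ = 0}` with a
finite morphism `B : W → V` and every surjective morphism `G : W → X = {Φ = 0}` whose fibres have at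
most `r` points, all closed subvarieties of positive dimension of `X` are of general type. -/
theorem result {N n m r : ℕ} (hm : 2 ≤ m) (hr : 1 ≤ r)
    (hN : 4 * n + (n + 2 * r - 1) ^ 2 < 2 * (N + 1)) (a : Fin (N + 1) → ℂ)
    (ha : Function.Injective a) {ι : Type} (F : ι → MvPolynomial (Fin (N + 1)) ℂ)
    (hF : ∀ e, IsForm (F e)) :
    (n < 2 * m → Cone F ⊆ PowVal a n m → AllSimple a n m F) ∧
    (AllSimple a n m F → ∀ (M : ℕ) (μ : Type) (Φ : μ → MvPolynomial (Fin (M + 1)) ℂ)
      (G : Fin (M + 1) → MvPolynomial (Fin (N + 1)) ℂ), (∀ e, IsForm (Φ e)) → Mor F Φ G →
      Onto F Φ G → FibresLe F G r →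
      [AllSub (fun K _ _ w => GeneralType ℂ K w) Φ,
        AllSub (fun K _ _ w => KodGe ℂ K w (fun _ => False) 0) Φ,
        AllSub (fun K _ _ w => Psef ℂ K w (fun _ => False)) Φ,
        AllSub (fun K _ _ w => ¬ IsUniruled ℂ K w) Φ, NoRat Φ, NoLines F, Brody F].TFAE ∧
      (Brody Φ → AllSub (fun K _ _ w => GeneralType ℂ K w) Φ)) ∧
    (AllSimple a n m F → Brody F → ∀ (s M : ℕ) (κ μ : Type)
      (Ψ : κ → MvPolynomial (Fin (s + 1)) ℂ) (Φ : μ → MvPolynomial (Fin (M + 1)) ℂ)
      (B : Fin (N + 1) → MvPolynomial (Fin (s + 1)) ℂ)
      (G : Fin (M + 1) → MvPolynomial (Fin (s + 1)) ℂ), (∀ e, IsForm (Ψ e)) → Mor Ψ F B →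
      Mor Ψ Φ G → Onto Ψ Φ G → FibresLe Ψ G r →
      AllSub (fun K _ _ w => GeneralType ℂ K w) Φ) := by
  refine ⟨fun hnm hV => allSimple_of_lt hnm hV, fun hS M μ Φ G hΦ hG hon hfib => ?_,
    fun hS hb s M κ μ Ψ Φ B G hΨ hB hG hon hfib K _ _ w y hw hy => ?_⟩
  · have ht := image_tfae hm hr hN ha hF hS hΦ hG hon hfib
    refine ⟨ht, fun hb => ?_⟩
    have h1 : NoRat Φ → AllSub (fun K _ _ w => GeneralType ℂ K w) Φ := (ht.out 4 0).1
    exact h1 (noRat_of_brody hb)
  · have h1 : Brody F → NoLines F := ((main hm (one_bound hr hN) ha hF hS).out 0 2).1
    exact sub_general hm hr hN ha hF hS (h1 hb) hΨ hB hG hon hfib hw hy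

end Pool.Agent.Results.MP_c6ff8d_ag.PolynomialValueImages
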