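import Pool.Agent.R882.HYM
import Pool.Agent.R882.HTM

/-!
# Hyperbolic images of towers of coverings in tori are of general type

MP_c6ff8d_ag, Q1, one direction for a class of projective varieties. Let
`V 0 ⇢ V 1 ⇢ ... ⇢ V k` be a tower (`Tower`, `Pool/Agent/R882/HT.lean`) of varieties of dimension
`n ≥ 1`: each `V i`, `i < k`, is a component of a nondegenerate complete intersection in a torus, of
any codimension, `V (i + 1)` is its image under a monomial map such that the function field of `V i`
is generated over that of `V (i + 1)` by a monomial, and the Fine interior of the Minkowski sum of
the Newton polytopes of `V i` contains columns of the lengths `c`, for the divisors `c < b i` of the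
degree `b i` of `V i` over `V (i + 1)`, with the width `M` in the directions of the monomials which
define `V (i + 1)`, where `s i ≤ c (M + 1)`, `s i = s / (b 0 ⋯ b (i - 1))`. The last variety `V k` is
either any uniruled variety, or any variety such that all the Kobayashi hyperbolic projective
varieties which are dominated by `V k` with finite degree are of general type (for instance any
variety for which Lang's conjecture is known for all its images).

Let `V 0 ⇢ X` be any dominant rational map of finite degree `r` to a projective variety `X`, smooth
or not; nothing else is assumed about it (it may be ramified arbitrarily and has no relation to the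
tower) or about `X`. The theorem: if `X` is Kobayashi hyperbolic (every holomorphic map from `ℂ` to
`X` is constant, by Brody's criterion), and the above holds for `s = 2 r`, then `X` is of general
type. If it holds for `s = r`, then the same is true for the geometric genus: if `X` is hyperbolic
and is not of general type, then the geometric genus of `X` is positive.

Proof: by `Pool/Agent/R882/HT.lean` of the starting repository, `X` is of general type, or its
geometric genus is positive, or `X` is dominated by `V k`. In the last case `X` is of general type
by the assumption on `V k`, or `X` is uniruled and there are rational curves on it.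

`K` and `L` are the function fields of `V 0` and `X`, and `x` is the generic point of `X`, in
homogeneous coordinates. `BrodyHyperbolic` is in `Pool/Agent/R882/HYDefs.lean`.
-/

set_option autoImplicit false
set_option linter.overlappingInstances false

open Pool.Agent.W602.GT
open Pool.Agent.W619.PQ (IsUniruled)
open Pool.Agent.R882.HT (Tower GenusZero Descends descends_uniruled)
open Pool.Agent.R882.HY (NoRationalCurve BrodyHyperbolic)

namespace Pool.Agent.Results.MP_c6ff8d_ag.TowersOfCoverings

/-- All Kobayashi hyperbolic projective varieties which are dominated, with finite degree, by the
varieties of dimension `n` with the function field `K`, are of general type. -/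
def HyperbolicImagesGeneral (n : ℕ) (K : Type) [Field K] [Algebra ℂ K] : Prop :=
  ∀ (L : Type) [Field L] [Algebra ℂ L] [Algebra L K] [IsScalarTower ℂ L K]
    [FiniteDimensional L K] (M : ℕ) (x : Fin (M + 1) → L), x ≠ 0 → coords ℂ x = ⊤ →
    BrodyHyperbolic x → GeneralType ℂ L n

/-- The condition on the last variety of the tower. -/
def Base (n : ℕ) (K : Type) [Field K] [Algebra ℂ K] : Prop :=
  IsUniruled ℂ K n ∨ HyperbolicImagesGeneral n K

theorem descends (n : ℕ) : Descends (fun K _ _ => Base n K) := by
  intro K _ _ L _ _ _ _ _ h
  rcases h with h | h
  · exact Or.inl (descends_uniruled n K L h)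
  · refine Or.inr fun L' _ _ _ _ _ => ?_
    let _ : Algebra L' K := ((algebraMap L K).comp (algebraMap L' L)).toAlgebra
    have : IsScalarTower L' L K := IsScalarTower.of_algebraMap_eq fun _ => rfl
    have : IsScalarTower ℂ L' K := by
      refine IsScalarTower.of_algebraMap_eq fun c => ?_
      change algebraMap ℂ K c = algebraMap L K (algebraMap L' L (algebraMap ℂ L' c))
      rw [← IsScalarTower.algebraMap_apply ℂ L' L, ← IsScalarTower.algebraMap_apply ℂ L K]
    have : FiniteDimensional L' K := FiniteDimensional.trans L' L K
    exact h L'

/-- **Hyperbolic images of towers of coverings.** Let `K` be the function field of the first variety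
`V` of a tower of coverings of dimension `n ≥ 1` in tori, over a uniruled variety or over a variety
whose hyperbolic images are of general type, and let `V ⇢ X` be a dominant rational map of finite
degree `r` to a projective variety `X` with function field `L` and generic point `x`. If the tower
has columns for `2 r` and `X` is Kobayashi hyperbolic, then `X` is of general type. If the tower has
columns for `r` and `X` is Kobayashi hyperbolic, then `X` is of general type or its geometric genus
is positive. -/
theorem result {n : ℕ} (hn : 1 ≤ n) {K : Type} [Field K] [Algebra ℂ K]
    (hK : Algebra.trdeg ℂ K = (n : ℕ))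
    (L : Type) [Field L] [Algebra ℂ L] [Algebra L K] [IsScalarTower ℂ L K]
    [FiniteDimensional L K] {M : ℕ} {x : Fin (M + 1) → L} (hx : x ≠ 0) (hgen : coords ℂ x = ⊤)
    (hhyp : BrodyHyperbolic x) :
    (Tower n (fun K _ _ => Base n K) K (2 * Module.finrank L K) → GeneralType ℂ L n) ∧
    (Tower n (fun K _ _ => Base n K) K (Module.finrank L K) →
      GeneralType ℂ L n ∨ ¬ GenusZero L n) := by
  have hL : Algebra.trdeg ℂ L = (n : ℕ) := Pool.Agent.Y184.NT.trdeg_below (K := K) hK
  have hbase : Base n L → GeneralType ℂ L n := by
    rintro (h | h)
    · exact absurd (Pool.Agent.R882.HY.noRat_of_hyperbolic hhyp)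
        (Pool.Agent.R882.HY.not_noRat hL h hx hgen)
    · let _ : Algebra L L := Algebra.id L
      exact h L M x hx hgen hhyp
  refine ⟨fun h => ?_, fun h => ?_⟩
  · rcases Pool.Agent.R882.HT.dichotomy hn (descends n) hK L h with h | h
    · exact h
    · exact hbase h
  · by_cases hg : GenusZero L n
    · exact Or.inl (hbase ((Pool.Agent.R882.HT.tower_aux hn (descends n) h hK L).1 rfl hg))
    · exact Or.inr hg

end Pool.Agent.Results.MP_c6ff8d_ag.TowersOfCoverings
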